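import Pool.Agent.Helper59.REC.LHMa

/-! # LHM: lifting of residual homomorphisms, complete reducibility   [helper59] -/

set_option autoImplicit false

open scoped Classical
open NumberField Polynomial

namespace REC

open MU

namespace LHMaux

/-- the similitude factors in characteristic zero -/
lemma smi_K (hSMI : ST_SMI) {K : Type} [Field K] [IsAlgClosed K] [CharZero K]
    {t : ℕ} {m : Fin t → ℕ} (J : MM m ℤ) (hJ : Jok J) {G : Type} [Group G]
    (R : ∀ i, G →* Matrix (Fin (m i)) (Fin (m i)) K) (q : Fin t → G → K)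
    (hF : Frm0 (jm K J) R q) (g : G) :
    ∃ a : Fin t → K, (∀ i, a i ≠ 0 ∧ (J i = 0 → a i ^ m i = (R i g).det) ∧
        (J i ≠ 0 → a i ^ 2 = q i g)) ∧
      ∀ (c₁ c₁' c₂ c₂' : Fin t → ℕ) (u : Matrix (Tix m c₂ c₂') (Tix m c₁ c₁') K),
        Eqv (jm K J) u → u * tmy c₁ c₁' (fun i => R i g) (fun i => R i g⁻¹) =
          (∏ i, a i ^ dg c₁ c₁' c₂ c₂' i) •
            (tmy c₂ c₂' (fun i => R i g) (fun i => R i g⁻¹) * u) := by
  refine hSMI K t m J hJ (fun i => R i g) (fun i => R i g⁻¹) (fun i => q i g) fun i => ?_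
  refine ⟨by rw [← map_mul, mul_inv_cancel, map_one], (hF i g).1, fun h => ?_⟩
  refine (hF i g).2 ?_
  intro h0
  apply h
  ext a b
  have h1 := congrFun (congrFun h0 a) b
  have h2 : ((J i a b : ℤ) : K) = 0 := h1
  exact_mod_cast h2

lemma subtype_inj {K : Type} [Field K] (A : ValuationSubring K) {ι κ : Type}
    {X Y : Matrix ι κ A} (h : X.map A.subtype = Y.map A.subtype) : X = Y := by
  ext i j
  exact congrFun (congrFun h i) j

lemma isUnit_hom {G A : Type} [Group G] [CommRing A] (τ : G →* A) (g : G) : IsUnit (τ g) :=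
  IsUnit.of_mul_eq_one (τ g⁻¹) (by rw [← map_mul, mul_inv_cancel, map_one])

lemma dns_of (hDNE : ST_DNE) {K : Type} [Field K] (A : ValuationSubring K) {t : ℕ}
    {m : Fin t → ℕ} (J : MM m ℤ) (hJ : Jok J) {l : ℕ} (hl : l.Prime)
    (h0 : (l : IsLocalRing.ResidueField A) = 0) {c : ℕ} (hcl : c < l) (h2 : 2 ≤ c)
    (hm : ∀ i, m i ≤ c) {G : Type} [Group G] (R : ∀ i, G →* Matrix (Fin (m i)) (Fin (m i)) A)
    (q : Fin t → G → A) (hF : Frh A J R q c) (d₁ d₁' d₂ d₂' : Fin t → ℕ)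
    (hd : ∀ i, 2 * (d₁ i + d₁' i + d₂ i + d₂' i) ≤ c) :
    Dns (jm (IsLocalRing.ResidueField A) J)
      (fun i => mapr (IsLocalRing.residue A) (R i)) d₁ d₁' d₂ d₂' := by
  obtain ⟨h1, h3, g, α, h4, h5⟩ := hF
  refine hDNE G (IsLocalRing.ResidueField A) t m J
    (fun i => mapr (IsLocalRing.residue A) (R i))
    (fun i g => IsLocalRing.residue A (q i g)) g α d₁ d₁' d₂ d₂' c ?_ ?_ hJ
    (Frm0_map _ J R q h1) h3 h4 h5 h2 hd
  · have := natcast_ne hl h0 (k := 2) (by norm_num) (by omega)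
    exact_mod_cast this
  · intro i k hk hki
    exact natcast_ne hl h0 hk ((hki.trans (hm i)).trans_lt hcl)

/-- lifting an equivariant matrix -/
lemma lift_eqv {K : Type} [Field K] [CharZero K] (A : ValuationSubring K) {t : ℕ}
    {m : Fin t → ℕ} (J : MM m ℤ) {c₁ c₁' c₂ c₂' : Fin t → ℕ} {r : ℕ}
    (u : Fin r → Matrix (Tix m c₂ c₂') (Tix m c₁ c₁') ℤ)
    (hu : ∀ j, Eqv (jm K J) ((u j).map (Int.castRingHom K)))
    (v : Matrix (Tix m c₂ c₂') (Tix m c₁ c₁') (IsLocalRing.ResidueField A))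
    (hv : v ∈ Submodule.span (IsLocalRing.ResidueField A)
      (Set.range fun j => (u j).map (Int.castRingHom (IsLocalRing.ResidueField A)))) :
    ∃ x : Matrix (Tix m c₂ c₂') (Tix m c₁ c₁') A, x.map (IsLocalRing.residue A) = v ∧
      Eqv (jm K J) (x.map A.subtype) := by
  obtain ⟨b, hb⟩ := lift_span A u v hv
  refine ⟨_, hb, ?_⟩
  rw [map_sum']
  exact Eqv_sum _ _ _ hu

lemma ssx_part (hTMB : ST_TMB) (hTWH : ST_TWH) (hSMI : ST_SMI) {K : Type} [Field K]
    [IsAlgClosed K] [CharZero K] (A : ValuationSubring K) {t : ℕ} {m : Fin t → ℕ} (J : MM m ℤ)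
    (hJ : Jok J) {G : Type} [Group G] (R : ∀ i, G →* Matrix (Fin (m i)) (Fin (m i)) A)
    (q : Fin t → G → A) (hF : Frm0 (jm A J) R q) {c₂ c₂' : Fin t → ℕ}
    (hD : Dns (jm (IsLocalRing.ResidueField A) J)
      (fun i => mapr (IsLocalRing.residue A) (R i)) 0 0 c₂ c₂') {r : ℕ}
    (u : Fin r → Matrix (Tix m c₂ c₂') (Tix m c₂ c₂') ℤ)
    (hu : ∀ j, Eqv (jm K J) ((u j).map (Int.castRingHom K)))
    (h1 : ∀ v : Matrix (Tix m c₂ c₂') (Tix m c₂ c₂') (IsLocalRing.ResidueField A),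
      Eqv (jm (IsLocalRing.ResidueField A) J) v →
          v ∈ Submodule.span (IsLocalRing.ResidueField A)
            (Set.range fun j => (u j).map (Int.castRingHom (IsLocalRing.ResidueField A))))
    (h2 : ∀ W : Submodule (IsLocalRing.ResidueField A)
        (Tix m c₂ c₂' → IsLocalRing.ResidueField A),
          (∀ X : MM m (IsLocalRing.ResidueField A), InS (jm (IsLocalRing.ResidueField A) J) X →
            ∀ x ∈ W, (dtm c₂ c₂' X).mulVec x ∈ W) →
          ∃ e : Matrix (Tix m c₂ c₂') (Tix m c₂ c₂') (IsLocalRing.ResidueField A),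
            Eqv (jm (IsLocalRing.ResidueField A) J) e ∧
            (∀ x, e.mulVec x ∈ W) ∧ ∀ x ∈ W, e.mulVec x = x) (τ : G →* A) :
    SSx (fun g => (τ g • tmy c₂ c₂' (fun i => R i g) (fun i => R i g⁻¹)).map
      (IsLocalRing.residue A)) := by
  intro W hW
  have hW' : ∀ g, ∀ x ∈ W, (tmy c₂ c₂' (fun i => mapr (IsLocalRing.residue A) (R i) g)
      (fun i => mapr (IsLocalRing.residue A) (R i) g⁻¹)).mulVec x ∈ W := by
    intro g x hx
    have h3 := hW g x hx
    simp only [map_smul', tmy_mapr hTMB] at h3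
    rw [Matrix.smul_mulVec] at h3
    have h4 : IsUnit (IsLocalRing.residue A (τ g)) := (isUnit_hom τ g).map _
    have h5 := W.smul_mem (IsLocalRing.residue A (τ g))⁻¹ h3
    rwa [smul_smul, inv_mul_cancel₀ h4.ne_zero, one_smul] at h5
  obtain ⟨e, he, he1, he2⟩ := h2 W ((hTWH G (IsLocalRing.ResidueField A) t m
    (jm (IsLocalRing.ResidueField A) J) (fun i => mapr (IsLocalRing.residue A) (R i))
    0 0 c₂ c₂').2 hD W hW')
  refine ⟨e, fun g => ?_, he1, he2⟩
  obtain ⟨x, hx, hxe⟩ := lift_eqv A J u hu e (h1 e he)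
  obtain ⟨a, ha, hu'⟩ := smi_K hSMI J hJ (fun i => mapr A.subtype (R i))
    (fun i g => A.subtype (q i g)) (Frm0_map _ J R q hF) g
  have h3 := hu' c₂ c₂' c₂ c₂' (x.map A.subtype) hxe
  have h4 : ∀ i, dg c₂ c₂' c₂ c₂' i = 0 := fun i => by simp only [dg]; ring
  simp only [h4, zpow_zero, Finset.prod_const_one, one_smul] at h3
  rw [← tmy_mapr hTMB, ← Matrix.map_mul, ← Matrix.map_mul] at h3
  have h5 := congrArg (fun M => M.map (IsLocalRing.residue A)) (subtype_inj A h3)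
  simp only [Matrix.map_mul, hx] at h5
  simp only [map_smul', Matrix.mul_smul, Matrix.smul_mul, h5]

lemma zpow_toNat {K : Type} [Field K] {x : K} (hx : x ≠ 0) (k : ℤ) :
    x ^ k * x ^ (-k).toNat = x ^ k.toNat := by
  rw [← zpow_natCast, ← zpow_natCast, ← zpow_add₀ hx]
  congr 1
  omega

lemma root_one {K : Type} [Field K] (A : ValuationSubring K) {z : A} {M : ℕ} (h : z ^ M = 1)
    (hz : IsLocalRing.residue A z = 1) (hM : (M : IsLocalRing.ResidueField A) ≠ 0) : z = 1 := by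
  have h1 := geom_sum_mul z M
  rw [h, sub_self] at h1
  rcases mul_eq_zero.1 h1 with h2 | h2
  · exfalso
    apply hM
    have h3 := congrArg (IsLocalRing.residue A) h2
    rw [map_sum, map_zero] at h3
    simp only [map_pow, hz, one_pow, Finset.sum_const, Finset.card_range, nsmul_eq_mul,
      mul_one] at h3
    exact h3
  · exact sub_eq_zero.1 h2

lemma dvd_mu2 {t : ℕ} (m : Fin t → ℕ) (i : Fin t) : m i ∣ mu2 m :=
  Dvd.dvd.mul_left (Finset.dvd_prod_of_mem _ (Finset.mem_univ i)) 2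

lemma mu2_pos {t : ℕ} {m : Fin t → ℕ} (h : ∀ i, 0 < m i) : 0 < mu2 m :=
  Nat.mul_pos (by norm_num) (Finset.prod_pos fun i _ => h i)

/-- the factor `ν` is a unit of `A` -/
lemma nu_exists {K : Type} [Field K] [CharZero K] (A : ValuationSubring K) {t : ℕ}
    {m : Fin t → ℕ} (J : MM m ℤ) (hJ : Jok J) {G : Type} [Group G]
    (R : ∀ i, G →* Matrix (Fin (m i)) (Fin (m i)) A) (q : Fin t → G → A)
    (hF : Frm0 (jm A J) R q) (g : G) (c₁ c₁' c₂ c₂' : Fin t → ℕ) (a : Fin t → K)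
    (ha : ∀ i, a i ≠ 0 ∧ (J i = 0 → a i ^ m i = (mapr A.subtype (R i) g).det) ∧
        (J i ≠ 0 → a i ^ 2 = A.subtype (q i g))) :
    ∃ ν : A, A.subtype ν = ∏ i, a i ^ dg c₁ c₁' c₂ c₂' i ∧
      (∏ i, chx J R q i g ^ (kap J c₁ c₁' c₂ c₂' i).toNat =
        ν ^ mu2 m * ∏ i, chx J R q i g ^ (-kap J c₁ c₁' c₂ c₂' i).toNat) ∧
      ∀ i, IsUnit (chx J R q i g) := by
  have hdet : ∀ i, IsUnit (R i g).det := fun i => by
    have h1 : R i g * R i g⁻¹ = 1 := by rw [← map_mul, mul_inv_cancel, map_one]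
    exact Matrix.isUnit_det_of_right_inverse h1
  have hq : ∀ i, J i ≠ 0 → IsUnit (q i g) := fun i hi => by
    have h1 := q_unit J (fun i => mapr A.subtype (R i)) (fun i g => A.subtype (q i g))
      (Frm0_map _ J R q hF) hi g
    refine IsUnit.of_mul_eq_one (q i g⁻¹) ?_
    apply Subtype.ext
    exact h1
  have hdetK : ∀ i, (mapr A.subtype (R i) g).det = A.subtype (R i g).det := fun i => by
    rw [RingHom.map_det]
    rfl
  have hchx : ∀ i, IsUnit (chx J R q i g) := fun i => by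
    unfold chx
    by_cases h : J i = 0
    · rw [if_pos h]; exact hdet i
    · rw [if_neg h]; exact hq i h
  have hv : ∀ i, A.valuation (a i) = 1 := fun i => by
    obtain ⟨h1, h2, h3⟩ := ha i
    by_cases h : J i = 0
    · refine val_one_of_pow A (hJ i).1 ?_
      rw [h2 h, hdetK]
      exact (A.valuation_eq_one_iff _).1 (hdet i)
    · refine val_one_of_pow A (n := 2) (by norm_num) ?_
      rw [h3 h]
      exact (A.valuation_eq_one_iff _).1 (hq i h)
  have hν : A.valuation (∏ i, a i ^ dg c₁ c₁' c₂ c₂' i) = 1 := by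
    rw [map_prod]
    refine Finset.prod_eq_one fun i _ => ?_
    rw [map_zpow₀, hv i, one_zpow]
  obtain ⟨ν, hνe⟩ : ∃ ν : A, A.subtype ν = ∏ i, a i ^ dg c₁ c₁' c₂ c₂' i :=
    ⟨⟨_, (A.valuation_le_one_iff _).1 hν.le⟩, rfl⟩
  refine ⟨ν, hνe, ?_, hchx⟩
  apply Subtype.ext
  change A.subtype (∏ i, chx J R q i g ^ (kap J c₁ c₁' c₂ c₂' i).toNat) =
    A.subtype (_ * ∏ i, chx J R q i g ^ (-kap J c₁ c₁' c₂ c₂' i).toNat)
  rw [map_mul, map_pow, hνe, map_prod, map_prod]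
  rw [← Finset.prod_pow, ← Finset.prod_mul_distrib]
  refine Finset.prod_congr rfl fun i _ => ?_
  rw [map_pow, map_pow]
  obtain ⟨h1, h2, h3⟩ := ha i
  have hne : A.subtype (chx J R q i g) ≠ 0 := ((hchx i).map A.subtype).ne_zero
  rw [← zpow_toNat hne]
  congr 1
  by_cases h : J i = 0
  · have h4 : A.subtype (chx J R q i g) = a i ^ m i := by
      rw [h2 h, hdetK]; unfold chx; rw [if_pos h]
    rw [h4, ← zpow_natCast, ← zpow_mul, ← zpow_natCast, ← zpow_mul]
    congr 1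
    unfold kap
    rw [if_pos h]
    have h5 : ((mu2 m / m i : ℕ) : ℤ) * (m i : ℤ) = mu2 m := by
      exact_mod_cast Nat.div_mul_cancel (dvd_mu2 m i)
    rw [← h5]; ring
  · have h4 : A.subtype (chx J R q i g) = a i ^ 2 := by
      rw [h3 h]; unfold chx; rw [if_neg h]
    rw [h4, ← zpow_natCast, ← zpow_mul, ← zpow_natCast, ← zpow_mul]
    congr 1
    unfold kap
    rw [if_neg h]
    have h5 : ((mu2 m / 2 : ℕ) : ℤ) * ((2 : ℕ) : ℤ) = mu2 m := by
      exact_mod_cast Nat.div_mul_cancel (Dvd.intro _ rfl : 2 ∣ mu2 m)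
    rw [← h5]; ring

lemma lift_part (hTMB : ST_TMB) (hTWH : ST_TWH) (hSMI : ST_SMI) {K : Type} [Field K]
    [IsAlgClosed K] [CharZero K] (A : ValuationSubring K) {t : ℕ} {m : Fin t → ℕ} (J : MM m ℤ)
    (hJ : Jok J) {G : Type} [Group G] (R : ∀ i, G →* Matrix (Fin (m i)) (Fin (m i)) A)
    (q : Fin t → G → A) (hF : Frm0 (jm A J) R q) {c₁ c₁' c₂ c₂' : Fin t → ℕ}
    (hD : Dns (jm (IsLocalRing.ResidueField A) J)
      (fun i => mapr (IsLocalRing.residue A) (R i)) c₁ c₁' c₂ c₂') {r : ℕ}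
    (u : Fin r → Matrix (Tix m c₂ c₂') (Tix m c₁ c₁') ℤ)
    (hu : ∀ j, Eqv (jm K J) ((u j).map (Int.castRingHom K)))
    (h1 : ∀ v : Matrix (Tix m c₂ c₂') (Tix m c₁ c₁') (IsLocalRing.ResidueField A),
      Eqv (jm (IsLocalRing.ResidueField A) J) v →
          v ∈ Submodule.span (IsLocalRing.ResidueField A)
            (Set.range fun j => (u j).map (Int.castRingHom (IsLocalRing.ResidueField A))))
    (hM : (mu2 m : IsLocalRing.ResidueField A) ≠ 0) (τ τ' : G →* A)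
    (hS : Sepr A J R q τ τ' (kap J c₁ c₁' c₂ c₂'))
    (v : Matrix (Tix m c₂ c₂') (Tix m c₁ c₁') (IsLocalRing.ResidueField A))
    (hv : ∀ g, v * (τ g • tmy c₁ c₁' (fun i => R i g) (fun i => R i g⁻¹)).map
        (IsLocalRing.residue A) =
      (τ' g • tmy c₂ c₂' (fun i => R i g) (fun i => R i g⁻¹)).map (IsLocalRing.residue A) * v) :
    ∃ x : Matrix (Tix m c₂ c₂') (Tix m c₁ c₁') A, x.map (IsLocalRing.residue A) = v ∧
      ∀ g, x * (τ g • tmy c₁ c₁' (fun i => R i g) (fun i => R i g⁻¹)) =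
        (τ' g • tmy c₂ c₂' (fun i => R i g) (fun i => R i g⁻¹)) * x := by
  by_cases hv0 : v = 0
  · refine ⟨0, ?_, fun g => by rw [Matrix.zero_mul, Matrix.mul_zero]⟩
    rw [hv0]
    ext i j; simp
  have hun : ∀ g, IsUnit (IsLocalRing.residue A (τ g)) := fun g => (isUnit_hom τ g).map _
  have hv1 : ∀ g, IsLocalRing.residue A (τ g) •
      (v * (tmy c₁ c₁' (fun i => R i g) (fun i => R i g⁻¹)).map (IsLocalRing.residue A)) =
      IsLocalRing.residue A (τ' g) •
        ((tmy c₂ c₂' (fun i => R i g) (fun i => R i g⁻¹)).map (IsLocalRing.residue A) * v) := by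
    intro g
    have h2 := hv g
    rwa [map_smul', map_smul', Matrix.mul_smul, Matrix.smul_mul] at h2
  have hE : Eqv (jm (IsLocalRing.ResidueField A) J) v := by
    refine (hTWH G (IsLocalRing.ResidueField A) t m (jm (IsLocalRing.ResidueField A) J)
      (fun i => mapr (IsLocalRing.residue A) (R i)) c₁ c₁' c₂ c₂').1 hD
      (fun g => (IsLocalRing.residue A (τ g))⁻¹ * IsLocalRing.residue A (τ' g)) v fun g => ?_
    rw [← tmy_mapr hTMB, ← tmy_mapr hTMB, mul_smul, ← hv1 g, smul_smul,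
      inv_mul_cancel₀ (hun g).ne_zero, one_smul]
  obtain ⟨x, hx, hxe⟩ := lift_eqv A J u hu v (h1 v hE)
  have key : ∀ g, ∃ ν : A, x * tmy c₁ c₁' (fun i => R i g) (fun i => R i g⁻¹) =
        ν • (tmy c₂ c₂' (fun i => R i g) (fun i => R i g⁻¹) * x) ∧
      IsLocalRing.residue A (τ g) * IsLocalRing.residue A ν = IsLocalRing.residue A (τ' g) ∧
      (∏ i, chx J R q i g ^ (kap J c₁ c₁' c₂ c₂' i).toNat =
        ν ^ mu2 m * ∏ i, chx J R q i g ^ (-kap J c₁ c₁' c₂ c₂' i).toNat) ∧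
      ∀ i, IsUnit (chx J R q i g) := by
    intro g
    obtain ⟨a, ha, hu'⟩ := smi_K hSMI J hJ (fun i => mapr A.subtype (R i))
      (fun i g => A.subtype (q i g)) (Frm0_map _ J R q hF) g
    obtain ⟨ν, hν, hP, hc⟩ := nu_exists A J hJ R q hF g c₁ c₁' c₂ c₂' a ha
    have h3 := hu' c₁ c₁' c₂ c₂' (x.map A.subtype) hxe
    rw [← hν, ← tmy_mapr hTMB, ← tmy_mapr hTMB, ← Matrix.map_mul, ← Matrix.map_mul,
      ← map_smul'] at h3
    have h4 := subtype_inj A h3
    refine ⟨ν, h4, ?_, hP, hc⟩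
    have h5 := congrArg (fun M => M.map (IsLocalRing.residue A)) h4
    simp only [Matrix.map_mul, map_smul', hx] at h5
    have h6 := hv1 g
    rw [h5, smul_smul] at h6
    have h7 : (tmy c₂ c₂' (fun i => R i g) (fun i => R i g⁻¹)).map (IsLocalRing.residue A) * v
        ≠ 0 := by
      intro h8
      apply hv0
      have h9 := tmy_inv hTMB c₂ c₂' (fun i => mapr (IsLocalRing.residue A) (R i)) g
      rw [← tmy_mapr hTMB (IsLocalRing.residue A) c₂ c₂' R g] at h9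
      calc v = 1 * v := (Matrix.one_mul v).symm
        _ = 0 := by rw [← h9, Matrix.mul_assoc, h8, Matrix.mul_zero]
    have h8 := sub_eq_zero.2 h6
    rw [← sub_smul] at h8
    rcases smul_eq_zero.1 h8 with h9 | h9
    · exact sub_eq_zero.1 h9
    · exact absurd h9 h7
  choose ν hν1 hν2 hν3 hν4 using key
  have hS1 := hS fun g => by
    rw [hν3 g]
    simp only [map_mul, map_pow, map_prod]
    rw [← hν2 g]
    ring
  refine ⟨x, hx, fun g => ?_⟩
  have h2 : τ g * ν g = τ' g := by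
    have h3 := hS1 g
    rw [hν3 g] at h3
    have hPu : IsUnit (∏ i, chx J R q i g ^ (-kap J c₁ c₁' c₂ c₂' i).toNat) := by
      refine IsUnit.prod_iff.2 fun i _ => (hν4 g i).pow _
    have h4 : (τ g * ν g) ^ mu2 m = τ' g ^ mu2 m := by
      refine hPu.mul_right_cancel ?_
      rw [← h3, mul_pow]; ring
    have h5 : τ' g * τ' g⁻¹ = 1 := by rw [← map_mul, mul_inv_cancel, map_one]
    have h6 : τ g * ν g * τ' g⁻¹ = 1 := by
      refine root_one A (M := mu2 m) ?_ ?_ hM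
      · rw [mul_pow, h4, ← mul_pow, h5, one_pow]
      · rw [map_mul, map_mul, hν2 g, ← map_mul, h5, map_one]
    calc τ g * ν g = τ g * ν g * (τ' g * τ' g⁻¹) := by rw [h5, mul_one]
      _ = τ g * ν g * τ' g⁻¹ * τ' g := by ring
      _ = τ' g := by rw [h6, one_mul]
  rw [Matrix.mul_smul, hν1 g, smul_smul, h2, Matrix.smul_mul]

end LHMaux

theorem LHM (hTMB : ST_TMB) (hDNE : ST_DNE) (hTWH : ST_TWH) (hINS : ST_INS) (hSMI : ST_SMI) :
    ST_LHM := by
  intro t m J hJ c₁ c₁' c₂ c₂'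
  obtain ⟨cA, rA, uA, huA, hA⟩ := hINS t m J hJ c₁ c₁' c₂ c₂'
  obtain ⟨cB, rB, uB, huB, hB⟩ := hINS t m J hJ c₂ c₂' c₂ c₂'
  have hs1 : ∀ i, 2 * (c₁ i + c₁' i + c₂ i + c₂' i) ≤
      ∑ i, 2 * (c₁ i + c₁' i + c₂ i + c₂' i) := fun i =>
    Finset.single_le_sum (f := fun i => 2 * (c₁ i + c₁' i + c₂ i + c₂' i))
      (fun _ _ => Nat.zero_le _) (Finset.mem_univ i)
  have hs2 : ∀ i, m i ≤ ∑ i, m i := fun i =>
    Finset.single_le_sum (f := fun i => m i) (fun _ _ => Nat.zero_le _) (Finset.mem_univ i)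
  refine ⟨cA + cB + ∑ i, 2 * (c₁ i + c₁' i + c₂ i + c₂' i) + 2 + ∑ i, m i + mu2 m,
    fun l K _ _ _ A hl hcl h0 G _ R q hF => ?_⟩
  have hD1 := LHMaux.dns_of hDNE A J hJ hl h0 hcl (by omega)
    (fun i => (hs2 i).trans (by omega)) R q hF c₁ c₁' c₂ c₂' (fun i => (hs1 i).trans (by omega))
  have hD2 := LHMaux.dns_of hDNE A J hJ hl h0 hcl (by omega)
    (fun i => (hs2 i).trans (by omega)) R q hF 0 0 c₂ c₂' (fun i => by
      have := hs1 i
      simp only [Pi.zero_apply]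
      omega)
  have hM : (mu2 m : IsLocalRing.ResidueField A) ≠ 0 :=
    LHMaux.natcast_ne hl h0 (LHMaux.mu2_pos fun i => (hJ i).1) (by omega)
  refine ⟨fun τ τ' hS v hv => ?_, fun τ => ?_⟩
  · exact LHMaux.lift_part hTMB hTWH hSMI A J hJ R q hF.1 hD1 uA (fun j => huA K j)
      (hA l (IsLocalRing.ResidueField A) hl (by omega) h0).1 hM τ τ' hS v hv
  · exact LHMaux.ssx_part hTMB hTWH hSMI A J hJ R q hF.1 hD2 uB (fun j => huB K j)
      (hB l (IsLocalRing.ResidueField A) hl (by omega) h0).1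
      (hB l (IsLocalRing.ResidueField A) hl (by omega) h0).2 τ

end REC
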