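import Pool.Agent.Helper57.REC.Stmts3
import Pool.Agent.Helper81.AbMot.Inrt

/-!
# REC, module TRL: from open subgroups to extensions
-/

set_option autoImplicit false
set_option maxHeartbeats 800000

open NumberField
open scoped Pointwise

namespace REC

open Pool.Agent.Helper13.ZL (Pl q HasMean)
open MU (Gal Zb Over CongPow)

section

variable {F L : Type} [Field F] [NumberField F] [Field L] [NumberField L] [Algebra F L]
  [IsGalois F L]

omit [IsGalois F L] in
theorem trl_lies {v : Pl F} {P : Pl L} (h : OvL v P) : P.asIdeal.LiesOver v.asIdeal := by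
  rw [Ideal.liesOver_iff]
  ext x
  exact (h x).symm

theorem trl_isGaloisGroup : IsGaloisGroup (L ≃ₐ[F] L) (𝓞 F) (𝓞 L) :=
  IsGaloisGroup.of_isFractionRing (L ≃ₐ[F] L) (𝓞 F) (𝓞 L) F L

omit [IsGalois F L] in
/-- unramified places: the valuations agree -/
theorem trl_val (v : Pl F) (P : Pl L) (h : OvL v P) [hu : Algebra.IsUnramifiedAt (𝓞 F) P.asIdeal]
    (x : F) : P.valuation L (algebraMap F L x) = v.valuation F x := by
  have hl := trl_lies h
  have hP := P.isPrime
  have h1 := IsDedekindDomain.HeightOneSpectrum.valuation_liesOver (K := F) L v P x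
  have h2 : v.asIdeal.ramificationIdx' P.asIdeal = 1 := by
    rw [Ideal.ramificationIdx'_eq_ramificationIdx v.asIdeal P.asIdeal v.ne_bot]
    exact Ideal.ramificationIdx_eq_one_of_isUnramifiedAt
  rw [h2, pow_one] at h1
  exact h1.symm

omit [IsGalois F L] in
/-- the number of places over `v` -/
theorem trl_ncard (v : Pl F) :
    Nat.card {P : Pl L // OvL v P} = (v.asIdeal.primesOver (𝓞 L)).ncard := by
  rw [← Nat.card_coe_set_eq]
  refine Nat.card_congr
    { toFun := fun P => ⟨P.1.asIdeal, P.1.isPrime, trl_lies P.2⟩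
      invFun := fun Q => ⟨⟨Q.1, Q.2.1, ?_⟩, ?_⟩
      left_inv := fun P => rfl
      right_inv := fun Q => rfl }
  · have := Q.2.1
    have := Q.2.2
    exact Ideal.ne_bot_of_liesOver_of_ne_bot v.ne_bot _
  · intro x
    have := Q.2.2
    have h : v.asIdeal = Q.1.under (𝓞 F) := this.over
    have h2 : x ∈ v.asIdeal ↔ x ∈ Q.1.under (𝓞 F) := by rw [← h]
    exact h2.symm

/-- the local degree of an unramified place is the inertia degree -/
theorem trl_nv (v : Pl F) (P : Pl L) (h : OvL v P) [hu : Algebra.IsUnramifiedAt (𝓞 F) P.asIdeal] :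
    q P = q v ^ nv L v := by
  have hG : IsGaloisGroup (L ≃ₐ[F] L) (𝓞 F) (𝓞 L) := trl_isGaloisGroup
  have hl := trl_lies h
  have hP := P.isPrime
  have hv := v.isPrime
  have h1 := Ideal.ncard_primesOver_mul_ramificationIdxIn_mul_inertiaDegIn v.asIdeal (𝓞 L)
    (L ≃ₐ[F] L)
  rw [Ideal.ramificationIdxIn_eq_ramificationIdx v.asIdeal P.asIdeal (L ≃ₐ[F] L),
    Ideal.ramificationIdx_eq_one_of_isUnramifiedAt, one_mul,
    Ideal.inertiaDegIn_eq_inertiaDeg v.asIdeal P.asIdeal (L ≃ₐ[F] L), ← trl_ncard v,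
    IsGalois.card_aut_eq_finrank] at h1
  have h0 : 0 < Nat.card {P : Pl L // OvL v P} := by
    rcases Nat.eq_zero_or_pos (Nat.card {P : Pl L // OvL v P}) with h0 | h0
    · rw [h0, zero_mul] at h1
      exact absurd h1.symm Module.finrank_pos.ne'
    · exact h0
  have h2 : nv L v = P.asIdeal.inertiaDeg (𝓞 F) := by
    unfold nv
    rw [← h1]
    exact Nat.mul_div_cancel_left _ h0
  rw [h2]
  exact (Ideal.absNorm_pow_inertiaDeg v.asIdeal P.asIdeal).symm

/-- if `x ↦ x ^ (Q ^ j)` is the identity on the residue field with `Q ^ f` elements, then `f ∣ j` -/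
theorem trl_dvd (P : Pl L) (Q f j : ℕ) (hQ : 2 ≤ Q) (hq : q P = Q ^ f)
    (h : ∀ x : 𝓞 L, x ^ Q ^ j - x ∈ P.asIdeal) : f ∣ j := by
  have hm : P.asIdeal.IsMaximal := P.isMaximal
  have hfin : Finite (𝓞 L ⧸ P.asIdeal) :=
    (Ideal.absNorm_ne_zero_iff P.asIdeal).1 (mt Ideal.absNorm_eq_zero_iff.1 P.ne_bot)
  let := Ideal.Quotient.field P.asIdeal
  have hcard : Nat.card (𝓞 L ⧸ P.asIdeal) = Q ^ f := hq
  obtain ⟨u, hu⟩ := IsCyclic.exists_generator (α := (𝓞 L ⧸ P.asIdeal)ˣ)
  have h1 : orderOf u = Nat.card (𝓞 L ⧸ P.asIdeal)ˣ := orderOf_eq_card_of_forall_mem_zpowers hu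
  have h2 : Nat.card (𝓞 L ⧸ P.asIdeal)ˣ = Q ^ f - 1 := by
    rw [Nat.card_units, hcard]
  have h3 : u ^ Q ^ j = u := by
    apply Units.ext
    rw [Units.val_pow_eq_pow_val]
    obtain ⟨x, hx⟩ := Ideal.Quotient.mk_surjective (u : 𝓞 L ⧸ P.asIdeal)
    rw [← hx, ← map_pow, Ideal.Quotient.eq]
    exact h x
  have h4 : u ^ (Q ^ j - 1) = 1 := by
    have h5 : u ^ (Q ^ j - 1) * u = 1 * u := by
      rw [← pow_succ, Nat.sub_add_cancel (Nat.one_le_pow _ _ (by omega)), h3, one_mul]
    exact mul_right_cancel h5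
  have h5 : Q ^ f - 1 ∣ Q ^ j - 1 := by
    rw [← h2, ← h1]
    exact orderOf_dvd_of_pow_eq_one h4
  have h6 := Nat.pow_sub_one_gcd_pow_sub_one Q f j
  rw [Nat.gcd_eq_left h5] at h6
  have h7 : Q ^ f = Q ^ Nat.gcd f j := by
    have a1 : 1 ≤ Q ^ f := Nat.one_le_pow _ _ (by omega)
    have a2 : 1 ≤ Q ^ Nat.gcd f j := Nat.one_le_pow _ _ (by omega)
    omega
  have h8 : f = Nat.gcd f j := Nat.pow_right_injective hQ h7
  rw [h8]
  exact Nat.gcd_dvd_right f j

theorem trl_q_ge_two (v : Pl F) : 2 ≤ q v := by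
  have h0 : Ideal.absNorm v.asIdeal ≠ 0 := mt Ideal.absNorm_eq_zero_iff.1 v.ne_bot
  have h1 : Ideal.absNorm v.asIdeal ≠ 1 := mt Ideal.absNorm_eq_one_iff.1 v.isPrime.ne_top
  show 2 ≤ Ideal.absNorm v.asIdeal
  omega

end

theorem st_TRL : ST_TRL := by
  intro F _ _ Y hYn hYo hcyc
  let H : ClosedSubgroup (Gal F) := ⟨Y, Y.isClosed_of_isOpen hYo⟩
  have hfix : (IntermediateField.fixedField Y).fixingSubgroup = Y :=
    InfiniteGalois.fixingSubgroup_fixedField H
  set L := IntermediateField.fixedField Y with hL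
  obtain ⟨hfd, hgal⟩ := (InfiniteGalois.isOpen_and_normal_iff_finite_and_isGalois L).1
    ⟨by rw [hfix]; exact hYo, by rw [hfix]; exact hYn⟩
  have hNF : NumberField L := NumberField.of_module_finite F L
  have hidx : Module.finrank F L = Y.index := by
    rw [IntermediateField.finrank_eq_fixingSubgroup_index, hfix]
  obtain ⟨g, hg⟩ := hcyc
  refine ⟨L, inferInstance, hNF, inferInstance, hgal, AlgEquiv.restrictNormalHom L g, ?_, hidx, ?_⟩
  · intro τ
    obtain ⟨τ', hτ'⟩ := AlgEquiv.restrictNormalHom_surjective (F := F) (K₁ := L)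
      (AlgebraicClosure F) τ
    obtain ⟨k, hk⟩ := hg τ'⁻¹
    refine ⟨k, ?_⟩
    rw [← hfix] at hk
    have h1 := (IntermediateField.mem_fixingSubgroup_iff L _).1 hk
    have h2 : AlgEquiv.restrictNormalHom L (g ^ k * τ'⁻¹) = 1 := by
      ext x
      have h3 := AlgEquiv.restrictNormal_commutes (g ^ k * τ'⁻¹) L x
      have h4 := h1 (x : AlgebraicClosure F) x.2
      exact h3.trans h4
    rw [map_mul, map_pow, map_inv, hτ'] at h2
    exact (mul_inv_eq_one.1 h2).symm
  · intro v hv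
    have hun : ∀ P : Pl L, OvL v P → Algebra.IsUnramifiedAt (𝓞 F) P.asIdeal := by
      intro P hP
      have := P.isPrime
      refine AbMot.unramified_of_inert L v.asIdeal v.isPrime v.ne_bot ?_ P.asIdeal ?_
      · rintro σ ⟨𝔓, h1, h2, h3⟩
        rw [hfix]
        refine hv 𝔓 ⟨h1, fun x y hxy => (h2 x y hxy).symm⟩ σ ?_
        intro x y hxy
        rw [pow_one]
        exact h3 x y hxy
      · ext x
        rw [Ideal.mem_comap]
        exact hP x
    refine ⟨?_, ?_⟩
    · intro P hP x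
      have := hun P hP
      exact trl_val v P hP x
    · intro 𝔓 h𝔓 j τ hτ hτY
      let f : 𝓞 L →+* Zb F :=
        { toFun := fun x => ⟨((x : L) : AlgebraicClosure F), by
            have := x.2
            exact (isIntegral_algebraMap_iff (algebraMap L (AlgebraicClosure F)).injective).2 this⟩
          map_one' := rfl
          map_mul' := fun _ _ => rfl
          map_zero' := rfl
          map_add' := fun _ _ => rfl }
      have h𝔓p := h𝔓.1
      have hQprime : (𝔓.comap f).IsPrime := Ideal.comap_isPrime f 𝔓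
      have hQP : ∀ x : 𝓞 F, algebraMap (𝓞 F) (𝓞 L) x ∈ 𝔓.comap f ↔ x ∈ v.asIdeal := by
        intro x
        rw [Ideal.mem_comap]
        exact h𝔓.2 x (f (algebraMap (𝓞 F) (𝓞 L) x)) rfl
      have hlies : (𝔓.comap f).LiesOver v.asIdeal := by
        rw [Ideal.liesOver_iff]
        ext x
        exact (hQP x).symm
      have hQ0 : 𝔓.comap f ≠ ⊥ := Ideal.ne_bot_of_liesOver_of_ne_bot v.ne_bot _
      let P : Pl L := ⟨𝔓.comap f, hQprime, hQ0⟩
      have hP : OvL v P := hQP
      have := hun P hP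
      refine trl_dvd P (q v) (nv L v) j (trl_q_ge_two v) (trl_nv v P hP) fun x => ?_
      show x ^ q v ^ j - x ∈ 𝔓.comap f
      rw [← hfix] at hτY
      have h1 := (IntermediateField.mem_fixingSubgroup_iff L _).1 hτY
      have h2 : f x - f x ^ (q v ^ j) ∈ 𝔓 := by
        refine hτ (f x) (f x) ?_
        exact (h1 ((x : L) : AlgebraicClosure F) (x : L).2).symm
      rw [Ideal.mem_comap, map_sub, map_pow, ← neg_sub]
      exact 𝔓.neg_mem h2

end REC
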