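import Pool.Agent.Helper27.REC.StmtsT

/-! # LHM, auxiliary lemmas   [helper59] -/

set_option autoImplicit false

open scoped Classical
open NumberField Polynomial

namespace REC

open MU

namespace LHMaux

lemma natcast_ne {κ : Type} [Field κ] {l : ℕ} (hl : l.Prime) (h0 : (l : κ) = 0) {k : ℕ}
    (hk : 0 < k) (hkl : k < l) : (k : κ) ≠ 0 := by
  intro h
  have hc : l.Coprime k :=
    (Nat.Prime.coprime_iff_not_dvd hl).2 (Nat.not_dvd_of_pos_of_lt hk hkl)
  obtain ⟨a, b, hab⟩ := Nat.isCoprime_iff_coprime.2 hc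
  have h1 := congrArg (Int.cast : ℤ → κ) hab
  push_cast at h1
  rw [h0, h] at h1
  simp at h1

lemma jm_map {A K : Type} [CommRing A] [CommRing K] (f : A →+* K) {t : ℕ} {m : Fin t → ℕ}
    (J : MM m ℤ) (i : Fin t) : (jm A J i).map f = jm K J i := by
  ext a b; simp [jm]

lemma map_mul3 {A K : Type} [CommRing A] [CommRing K] (f : A →+* K) {n : ℕ}
    (X Y Z : Matrix (Fin n) (Fin n) A) :
    (X.transpose * Y * Z).map f = (X.map f).transpose * Y.map f * Z.map f := by
  rw [Matrix.map_mul, Matrix.map_mul, Matrix.transpose_map]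

lemma map_smul' {A K : Type} [CommRing A] [CommRing K] (f : A →+* K) {ι κ : Type}
    (a : A) (X : Matrix ι κ A) : (a • X).map f = f a • X.map f := by
  ext i j; simp

lemma Frm0_map {G A K : Type} [Group G] [CommRing A] [CommRing K] (f : A →+* K) {t : ℕ}
    {m : Fin t → ℕ} (J : MM m ℤ) (R : ∀ i, G →* Matrix (Fin (m i)) (Fin (m i)) A)
    (q : Fin t → G → A) (h : Frm0 (jm A J) R q) :
    Frm0 (jm K J) (fun i => mapr f (R i)) (fun i g => f (q i g)) := by
  intro i g
  obtain ⟨h1, h2⟩ := h i g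
  refine ⟨?_, fun h3 r hr => ?_⟩
  · have h4 := congrArg (fun M => M.map f) h1
    simp only [map_mul3, map_smul', jm_map] at h4
    exact h4
  · have h5 : jm A J i ≠ 0 := by
      intro h6
      apply h3
      rw [← jm_map f J i, h6]
      ext a b; simp
    have h7 := congrArg f (h2 h5 r hr)
    rw [map_pow, RingHom.map_det] at h7
    exact h7

lemma tmy_mapr (hTMB : ST_TMB) {G A K : Type} [Group G] [CommRing A] [CommRing K] (f : A →+* K)
    {t : ℕ} {m : Fin t → ℕ} (c c' : Fin t → ℕ)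
    (R : ∀ i, G →* Matrix (Fin (m i)) (Fin (m i)) A) (g : G) :
    (tmy c c' (fun i => R i g) (fun i => R i g⁻¹)).map f =
      tmy c c' (fun i => mapr f (R i) g) (fun i => mapr f (R i) g⁻¹) :=
  ((hTMB A t m c c').2.2.1 K f _ _).1

lemma tmy_inv (hTMB : ST_TMB) {G K : Type} [Group G] [CommRing K]
    {t : ℕ} {m : Fin t → ℕ} (c c' : Fin t → ℕ)
    (R : ∀ i, G →* Matrix (Fin (m i)) (Fin (m i)) K) (g : G) :
    tmy c c' (fun i => R i g⁻¹) (fun i => R i g) * tmy c c' (fun i => R i g) (fun i => R i g⁻¹) =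
      1 := by
  have h := (hTMB K t m c c').1 (fun i => R i g⁻¹) (fun i => R i g) (fun i => R i g)
    (fun i => R i g⁻¹)
  rw [← h]
  have h1 : (fun i => R i g⁻¹ * R i g) = (fun _ => 1 : MM m K) := by
    funext i
    rw [← map_mul, inv_mul_cancel, map_one]
  rw [h1]
  exact (hTMB K t m c c').2.1

lemma Eqv_zero {K : Type} [CommRing K] {t : ℕ} {m : Fin t → ℕ} (J : MM m K)
    {c₁ c₁' c₂ c₂' : Fin t → ℕ} : Eqv J (0 : Matrix (Tix m c₂ c₂') (Tix m c₁ c₁') K) := by
  intro X _
  rw [Matrix.mul_zero, Matrix.zero_mul]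

lemma Eqv_sum {K : Type} [CommRing K] {t : ℕ} {m : Fin t → ℕ} (J : MM m K)
    {c₁ c₁' c₂ c₂' : Fin t → ℕ} {r : ℕ} (b : Fin r → K)
    (u : Fin r → Matrix (Tix m c₂ c₂') (Tix m c₁ c₁') K) (h : ∀ j, Eqv J (u j)) :
    Eqv J (∑ j, b j • u j) := by
  intro X hX
  rw [Matrix.mul_sum, Matrix.sum_mul]
  refine Finset.sum_congr rfl fun j _ => ?_
  rw [Matrix.mul_smul, Matrix.smul_mul, h j X hX]

lemma map_sum' {A K : Type} [CommRing A] [CommRing K] (f : A →+* K) {ι κ : Type} {r : ℕ}
    (b : Fin r → A) (u : Fin r → Matrix ι κ ℤ) :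
    (∑ j, b j • (u j).map (Int.castRingHom A)).map f =
      ∑ j, f (b j) • (u j).map (Int.castRingHom K) := by
  ext x y
  simp [Matrix.sum_apply]

/-- lifting combinations of integral matrices -/
lemma lift_span {K : Type} [Field K] (A : ValuationSubring K) {ι κ : Type} {r : ℕ}
    (u : Fin r → Matrix ι κ ℤ) (v : Matrix ι κ (IsLocalRing.ResidueField A))
    (hv : v ∈ Submodule.span (IsLocalRing.ResidueField A)
      (Set.range fun j => (u j).map (Int.castRingHom (IsLocalRing.ResidueField A)))) :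
    ∃ b : Fin r → A, (∑ j, b j • (u j).map (Int.castRingHom A)).map (IsLocalRing.residue A) = v := by
  obtain ⟨a, ha⟩ := (Submodule.mem_span_range_iff_exists_fun _).1 hv
  choose b hb using fun j => IsLocalRing.residue_surjective (a j)
  refine ⟨b, ?_⟩
  rw [map_sum', ← ha]
  exact Finset.sum_congr rfl fun j _ => by rw [hb j]

lemma val_one_of_pow {K : Type} [Field K] (A : ValuationSubring K) {a : K} {n : ℕ} (hn : 0 < n)
    (h : A.valuation (a ^ n) = 1) : A.valuation a = 1 := by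
  rw [map_pow] at h
  exact (pow_eq_one_iff_of_nonneg zero_le hn.ne').1 h

lemma q_unit {G K : Type} [Group G] [Field K] [CharZero K] {t : ℕ} {m : Fin t → ℕ}
    (J : MM m ℤ) (R : ∀ i, G →* Matrix (Fin (m i)) (Fin (m i)) K) (q : Fin t → G → K)
    (h : Frm0 (jm K J) R q) {i : Fin t} (hJ : J i ≠ 0) (g : G) : q i g * q i g⁻¹ = 1 := by
  have h1 := (h i g).1
  have h2 := (h i g⁻¹).1
  have h3 : R i g * R i g⁻¹ = 1 := by rw [← map_mul, mul_inv_cancel, map_one]
  have h4 : (R i g⁻¹).transpose * ((R i g).transpose * jm K J i * R i g) * R i g⁻¹ = jm K J i := by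
    calc (R i g⁻¹).transpose * ((R i g).transpose * jm K J i * R i g) * R i g⁻¹
        = ((R i g * R i g⁻¹).transpose) * jm K J i * (R i g * R i g⁻¹) := by
          rw [Matrix.transpose_mul]; simp only [Matrix.mul_assoc]
      _ = jm K J i := by rw [h3, Matrix.transpose_one, Matrix.one_mul, Matrix.mul_one]
  rw [h1, Matrix.mul_smul, Matrix.smul_mul, h2, smul_smul] at h4
  obtain ⟨a, b, hab⟩ : ∃ a b, J i a b ≠ 0 := by
    by_contra hcon
    push Not at hcon
    apply hJ
    ext a b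
    exact hcon a b
  have h5 := congrFun (congrFun h4 a) b
  have h6 : jm K J i a b ≠ 0 := by
    show ((J i a b : ℤ) : K) ≠ 0
    exact_mod_cast hab
  rw [Matrix.smul_apply, smul_eq_mul] at h5
  exact mul_right_cancel₀ h6 (h5.trans (one_mul _).symm)

end LHMaux

end REC
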