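import Pool.Agent.Helper85.REC.Stmts13
import Pool.Agent.Helper85.REC.IR2
import Pool.Agent.Helper72.REC.REL3

/-!
# REC, module RLJ: the exact relation for the determinant of a stable subspace
-/

set_option autoImplicit false
set_option maxHeartbeats 800000

open scoped Classical
open NumberField Polynomial

namespace REC

open Pool.Agent.Helper13.ZL (Pl q)
open MU
open Pool.Agent.Helper72.REC.R3 (exists_Bl pl_eq_of_pow_le exists_unif)
open Pool.Agent.Helper18.REC (ev_pow)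

/-- a nonzero algebraic integer is in the primes over finitely many `l` only -/
theorem rlj_bound {Ω : Type} [Field Ω] [CharZero Ω] (y : 𝓞 Ω) (hy : y ≠ 0) :
    ∃ c : ℕ, ∀ l : ℕ, l.Prime → c < l → ∀ 𝔩 : Ideal (𝓞 Ω), 𝔩.IsPrime → (l : 𝓞 Ω) ∈ 𝔩 → y ∉ 𝔩 := by
  have h1 : (Ideal.span {y}).comap (algebraMap ℤ (𝓞 Ω)) ≠ ⊥ :=
    Ideal.comap_ne_bot_of_integral_mem hy (Ideal.mem_span_singleton_self y)
      (Algebra.IsIntegral.isIntegral y)
  obtain ⟨c, hc, hc0⟩ := Submodule.exists_mem_ne_zero_of_ne_bot h1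
  refine ⟨c.natAbs, fun l hl hcl 𝔩 h𝔩 hl𝔩 hy𝔩 => ?_⟩
  have h2 : algebraMap ℤ (𝓞 Ω) c ∈ 𝔩 := by
    have h3 : Ideal.span {y} ≤ 𝔩 := by
      rw [Ideal.span_singleton_le_iff_mem]; exact hy𝔩
    exact h3 hc
  have h3 : IsCoprime (l : ℤ) c := by
    rw [Int.isCoprime_iff_gcd_eq_one]
    have h4 : Nat.Coprime l c.natAbs := by
      rw [Nat.Prime.coprime_iff_not_dvd hl]
      intro h5
      have h6 := Nat.le_of_dvd (Int.natAbs_pos.mpr hc0) h5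
      omega
    simpa [Int.gcd] using h4
  obtain ⟨a, b, hab⟩ := h3
  apply h𝔩.ne_top
  rw [Ideal.eq_top_iff_one]
  have h5 : (algebraMap ℤ (𝓞 Ω) a) * (l : 𝓞 Ω) + algebraMap ℤ (𝓞 Ω) b * algebraMap ℤ (𝓞 Ω) c = 1 := by
    have := congrArg (algebraMap ℤ (𝓞 Ω)) hab
    rw [map_add, map_mul, map_mul, map_one, map_natCast] at this
    exact this
  rw [← h5]
  exact add_mem (Ideal.mul_mem_left _ _ hl𝔩) (Ideal.mul_mem_left _ _ h2)

/-- the value of a character with the given ramification at a power of Frobenius -/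
theorem rlj_det (hLART : ST_LART) (hEV : ST_EV) (hFRV : ST_FRV) (hCNV : ST_CNV) {F : Type}
    [Field F] [NumberField F] {k : Type} [Field k] (l : ℕ) [Fact l.Prime]
    (ι₀ : 𝓞 (AlgebraicClosure F) →+* k) (hι₀ : ι₀ (l : 𝓞 (AlgebraicClosure F)) = 0)
    (δ : Gal F →* kˣ) (e : (F →+* AlgebraicClosure F) → ℕ)
    (hop : IsOpen (δ.ker : Set (Gal F)))
    (hun : ∀ v : Pl F, (l : 𝓞 F) ∉ v.asIdeal → Unr δ v)
    (hta : ∀ v : Pl F, (l : 𝓞 F) ∈ v.asIdeal → ∀ (π : 𝓞 F), π ∈ v.asIdeal → π ∉ v.asIdeal ^ 2 →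
      ∀ 𝔓 : Ideal (Zb F), OverP v 𝔓 → ∀ σ : Gal F, CongPow 𝔓 1 σ → ∀ u : 𝓞 F, u ∉ v.asIdeal →
        Tm v 𝔓 π σ u → ((δ σ : kˣ) : k) * tmp ι₀ v e u = 1)
    (v : Pl F) (p : ℕ) (𝔓 : Ideal (Zb F)) (a m : ℕ) (σ : Gal F) (x : 𝓞 F) (hp : p.Prime)
    (hlp : l ≠ p) (hpv : (p : 𝓞 F) ∈ v.asIdeal) (h𝔓 : OverP v 𝔓) (hσ : CongPow 𝔓 (q v ^ a) σ)
    (hx : TotPos (x : F)) (hxv : Ideal.span {x} = v.asIdeal ^ m) :
    ((δ ((σ ^ m)⁻¹) : kˣ) : k) =
      ι₀ (∏ τ : F →+* AlgebraicClosure F, RingOfIntegers.mapRingHom τ x ^ (e τ * a)) := by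
  obtain ⟨L, _, _, _, ⟨τ₀⟩⟩ := ir_gal F
  have : Nonempty (F →+* L) := ⟨τ₀⟩
  obtain ⟨j₀, hj₀⟩ := hCNV F L
  have hlP : l.Prime := Fact.out
  set ι : 𝓞 L →+* k := ι₀.comp (RingOfIntegers.mapRingHom j₀) with hι
  have hιl : ι (l : 𝓞 L) = 0 := by
    rw [map_natCast, ← map_natCast ι₀, hι₀]
  obtain ⟨Bl, hBl⟩ := exists_Bl F l
  choose π hπ using fun v : Pl F => exists_unif v
  -- the Frobenius function
  have hφ : ∃ φ : Pl F → kˣ, IsPhi δ Bl φ := by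
    have h1 : ∀ u : Pl F, ∃ a : kˣ, (u ∈ Bl → a = 1) ∧ (u ∉ Bl → IsFr δ u a) := by
      intro u
      by_cases hu : u ∈ Bl
      · exact ⟨1, fun _ => rfl, fun h => absurd hu h⟩
      · obtain ⟨a, ha⟩ := (hFRV F kˣ δ u).1 (hun u (fun h => hu ((hBl u).mpr h)))
        exact ⟨a, fun h => absurd h hu, fun _ => ha⟩
    choose φ hφ using h1
    exact ⟨φ, fun u hu => (hφ u).1 hu, fun u hu => (hφ u).2 hu⟩
  obtain ⟨φ, hφ⟩ := hφ
  -- places
  have hcop : ∀ u : Pl F, (p : 𝓞 F) ∈ u.asIdeal → (l : 𝓞 F) ∈ u.asIdeal → False := by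
    intro u h1 h2
    have h3 : IsCoprime (l : ℤ) (p : ℤ) := by
      rw [Nat.isCoprime_iff_coprime]
      exact (Nat.coprime_primes hlP hp).mpr hlp
    obtain ⟨a, b, hab⟩ := h3
    apply u.isPrime.ne_top
    rw [Ideal.eq_top_iff_one]
    have h4 : (a : 𝓞 F) * (l : 𝓞 F) + (b : 𝓞 F) * (p : 𝓞 F) = 1 := by
      exact_mod_cast congrArg (Int.cast : ℤ → 𝓞 F) hab
    rw [← h4]
    exact add_mem (Ideal.mul_mem_left _ _ h2) (Ideal.mul_mem_left _ _ h1)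
  have hvB : v ∉ Bl := fun h1 => hcop v hpv ((hBl v).mp h1)
  have hxB : ∀ u ∈ Bl, x ∉ u.asIdeal := by
    intro u hu hxu
    have h1 : v.asIdeal ^ m ≤ u.asIdeal := by
      rw [← hxv, Ideal.span_singleton_le_iff_mem]; exact hxu
    have h2 : v = u := pl_eq_of_pow_le v u m h1
    exact hvB (h2 ▸ hu)
  have hx0 : x ≠ 0 := by
    rintro rfl
    have h1 : (⊥ : Ideal (𝓞 F)) = v.asIdeal ^ m := by
      rw [← hxv, Ideal.span_singleton_eq_bot.mpr rfl]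
    exact (pow_ne_zero m v.ne_bot) h1.symm
  have h1 := hLART F L l k ι hιl δ Bl φ π (fun τ => e (j₀.comp τ)) hBl hop hφ
    (fun u hu => ⟨hπ u, fun 𝔔 h𝔔 σ' hσ' y hy hT => by
      have h2 := hta u ((hBl u).mp hu) (π u) (hπ u).1 (hπ u).2 𝔔 h𝔔 σ' hσ' y hy hT
      refine Eq.trans ?_ h2
      congr 1
      unfold tmp
      exact Function.Bijective.prod_comp hj₀ (fun τ' : F →+* AlgebraicClosure F =>
        if RingHom.ker (ι₀.comp (RingOfIntegers.mapRingHom τ')) = u.asIdeal then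
          ι₀ (RingOfIntegers.mapRingHom τ' y) ^ e τ' else 1)⟩)
    x hx0 hx hxB
  have hev : ev φ (Ideal.span {x}) = φ v ^ m := by rw [hxv, ev_pow hEV]
  have hεσ : δ σ = φ v ^ a := hφ.2 v hvB 𝔓 h𝔓 a σ hσ
  have hεσm : δ (σ ^ m) = (φ v ^ m) ^ a := by
    rw [map_pow, hεσ, ← pow_mul, ← pow_mul, mul_comm]
  rw [hev] at h1
  have h3 : ι₀ (∏ τ : F →+* AlgebraicClosure F, RingOfIntegers.mapRingHom τ x ^ (e τ * a)) =
      (∏ τ : F →+* L, ι (RingOfIntegers.mapRingHom τ x) ^ e (j₀.comp τ)) ^ a := by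
    rw [map_prod, ← Finset.prod_pow]
    rw [← Function.Bijective.prod_comp hj₀ (fun τ' : F →+* AlgebraicClosure F =>
      ι₀ (RingOfIntegers.mapRingHom τ' x ^ (e τ' * a)))]
    exact Finset.prod_congr rfl fun τ _ => by rw [map_pow, pow_mul]; rfl
  rw [h3, map_inv, hεσm, ← inv_pow, Units.val_pow_eq_pow_val]
  congr 1
  exact Units.inv_eq_of_mul_eq_one_right h1

/-- the relation modulo a prime over `l` -/
theorem rlj_mod (hLART : ST_LART) (hEV : ST_EV) (hFRV : ST_FRV) (hCNV : ST_CNV) (hJSB : ST_JSB)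
    {F : Type} [Field F] [NumberField F] {S : Finset ℕ} {n w : ℕ} {h : Fin n → ℕ}
    (M : Mot F S n w h) (R : ℤ[X]) (d : ℕ) (om : Matrix (Fin n) (Fin n) ℤ) (hAct : IsAct M R d om)
    (j l : ℕ) [Fact l.Prime] (hnl : n < l) (e : (F →+* AlgebraicClosure F) → ℕ)
    (lam : 𝓞 (AlgebraicClosure F)) (hW : WDat M om j l e lam)
    (v : Pl F) (p : ℕ) (𝔓 : Ideal (Zb F)) (a m : ℕ) (σ : Gal F) (x : 𝓞 F)
    (la al : Fin n → 𝓞 (AlgebraicClosure F)) (hp : p.Prime)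
    (hlp : l ≠ p) (hpv : (p : 𝓞 F) ∈ v.asIdeal) (h𝔓 : OverP v 𝔓) (hσ : CongPow 𝔓 (q v ^ a) σ)
    (hx : TotPos (x : F)) (hxv : Ideal.span {x} = v.asIdeal ^ m)
    (hJ : Jev M R d om p (σ ^ m)⁻¹ la al) :
    ∃ (𝔩 : Ideal (𝓞 (AlgebraicClosure F))) (J : Finset (Fin n)), 𝔩.IsPrime ∧
      (l : 𝓞 (AlgebraicClosure F)) ∈ 𝔩 ∧ J.card = j ∧ (∀ b ∈ J, la b - lam ∈ 𝔩) ∧
      ∏ b ∈ J, al b - ∏ τ : F →+* AlgebraicClosure F, RingOfIntegers.mapRingHom τ x ^ (e τ * a) ∈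
        𝔩 := by
  obtain ⟨k, _, _, κ, ι, B, A, δ, hsub, heig, hdet, hop, hun, hta⟩ := hW
  have hkl : (l : k) = 0 := by
    rw [← map_natCast κ, ZMod.natCast_self, map_zero]
  have hιl : ι (l : 𝓞 (AlgebraicClosure F)) = 0 := by rw [map_natCast, hkl]
  have hδ := rlj_det hLART hEV hFRV hCNV l ι hιl δ e hop hun hta v p 𝔓 a m σ x hp hlp hpv h𝔓 hσ
    hx hxv
  set g : Gal F := (σ ^ m)⁻¹ with hg
  obtain ⟨C, hC⟩ := hsub.1
  -- the two reductions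
  let ψ : ℤ_[l] →+* k := κ.comp (PadicInt.toZMod (p := l))
  have hψ : ψ.comp (Int.castRingHom ℤ_[l]) = Int.castRingHom k := RingHom.ext_int _ _
  have hX : om.map (Int.castRingHom k) = (om.map (Int.castRingHom ℤ_[l])).map ψ := by
    rw [Matrix.map_map, ← hψ]
    rfl
  have hY : mapk κ (res (M.ρ l)) g = (M.ρ l g : Matrix (Fin n) (Fin n) ℤ_[l]).map ψ := rfl
  have hpw : ∀ (Z : Matrix (Fin n) (Fin n) ℤ_[l]) (i : ℕ), (Z.map ψ) ^ i = (Z ^ i).map ψ := by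
    intro Z i
    exact (map_pow (ψ.mapMatrix (m := Fin n)) Z i).symm
  have hmul : ∀ (Z W : Matrix (Fin n) (Fin n) ℤ_[l]), (Z.map ψ) * (W.map ψ) = (Z * W).map ψ := by
    intro Z W
    exact (map_mul (ψ.mapMatrix (m := Fin n)) Z W).symm
  have htr : ∀ (Z : Matrix (Fin n) (Fin n) ℤ_[l]), (Z.map ψ).trace = ψ Z.trace := by
    intro Z
    exact (AddMonoidHom.map_trace ψ.toAddMonoidHom Z).symm
  obtain ⟨J, hJc, hJla, hJch⟩ := hJSB k n j (om.map (Int.castRingHom k)) (mapk κ (res (M.ρ l)) g)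
    (fun b => ι (la b)) (fun b => ι (al b))
    (by
      intro i hi hin h0
      rw [← map_natCast κ, map_eq_zero, ZMod.natCast_eq_zero_iff] at h0
      exact absurd (Nat.le_of_dvd hi h0) (by omega))
    (by rw [hX, hY, hmul, hmul, hAct.comm l g])
    (by
      intro i s
      obtain ⟨z, hz, hz'⟩ := hJ.2.2 i s
      rw [hX, hY, hpw, hpw, hmul, htr, hz' l hlp, map_intCast]
      have h1 := congrArg ι hz
      rw [map_sum, map_intCast] at h1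
      rw [← h1]
      exact Finset.sum_congr rfl fun b _ => by rw [map_mul, map_pow, map_pow])
    (ι lam) B (A g) C hC heig (hsub.2 g)
  refine ⟨RingHom.ker ι, J, RingHom.ker_isPrime ι, (RingHom.mem_ker).mpr hιl, hJc, ?_, ?_⟩
  · intro b hb
    rw [RingHom.mem_ker, map_sub, hJla b hb, sub_self]
  · rw [RingHom.mem_ker, map_sub, ← hδ, hdet g, Matrix.det_eq_sign_charpoly_coeff, hJch,
      Polynomial.coeff_zero_eq_eval_zero, Polynomial.eval_prod, Fintype.card_fin, map_prod]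
    have h1 : ∏ b ∈ J, Polynomial.eval 0 (Polynomial.X - Polynomial.C (ι (al b))) =
        (-1) ^ j * ∏ b ∈ J, ι (al b) := by
      rw [← hJc, ← Finset.prod_const, ← Finset.prod_mul_distrib]
      exact Finset.prod_congr rfl fun b _ => by simp
    rw [h1, ← mul_assoc, ← mul_pow, neg_one_mul, neg_neg, one_pow, one_mul, sub_self]

theorem st_RLJ : ST_LART → ST_EV → ST_FRV → ST_CNV → ST_JSB → ST_RLJ := by
  intro hLART hEV hFRV hCNV hJSB F _ _ S hS n w h M R d om hAct j e lam hlam hinf v p 𝔓 a m σ x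
    la al hp hpS hpv h𝔓 ha hm hσ hx hxv hJ
  by_contra hcon
  push Not at hcon
  have hb : ∀ y : 𝓞 (AlgebraicClosure F), ∃ c : ℕ, y ≠ 0 → ∀ l : ℕ, l.Prime → c < l →
      ∀ 𝔩 : Ideal (𝓞 (AlgebraicClosure F)), 𝔩.IsPrime → (l : 𝓞 (AlgebraicClosure F)) ∈ 𝔩 →
        y ∉ 𝔩 := by
    intro y
    by_cases hy : y = 0
    · exact ⟨0, fun h => absurd hy h⟩
    · obtain ⟨c, hc⟩ := rlj_bound y hy
      exact ⟨c, fun _ => hc⟩
  choose c hc using hb
  set β : 𝓞 (AlgebraicClosure F) :=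
    ∏ τ : F →+* AlgebraicClosure F, RingOfIntegers.mapRingHom τ x ^ (e τ * a) with hβ
  obtain ⟨l, hl, hNl, hW⟩ := hinf (p + n + ∑ b, c (la b - lam) +
    ∑ J : Finset (Fin n), c (∏ b ∈ J, al b - β))
  have hlP : l.Prime := hl.out
  obtain ⟨𝔩, J, h𝔩, hl𝔩, hJc, hJla, hJp⟩ := rlj_mod hLART hEV hFRV hCNV hJSB M R d om hAct j l
    (by omega) e lam hW v p 𝔓 a m σ x la al hp (by omega) hpv h𝔓 hσ hx hxv hJ
  have h1 : ∀ b ∈ J, la b = lam := by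
    intro b hb
    by_contra hne
    refine hc (la b - lam) (sub_ne_zero.mpr hne) l hlP ?_ 𝔩 h𝔩 hl𝔩 (hJla b hb)
    have h2 : c (la b - lam) ≤ ∑ b, c (la b - lam) :=
      Finset.single_le_sum (f := fun b => c (la b - lam)) (fun _ _ => Nat.zero_le _)
        (Finset.mem_univ b)
    omega
  refine hc (∏ b ∈ J, al b - β) (sub_ne_zero.mpr (hcon J hJc h1)) l hlP ?_ 𝔩 h𝔩 hl𝔩 hJp
  have h2 : c (∏ b ∈ J, al b - β) ≤ ∑ J : Finset (Fin n), c (∏ b ∈ J, al b - β) :=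
    Finset.single_le_sum (f := fun J : Finset (Fin n) => c (∏ b ∈ J, al b - β))
      (fun _ _ => Nat.zero_le _) (Finset.mem_univ J)
  omega

end REC
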