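import Pool.Agent.Helper27.REC.StmtsT2

/-!
# REC, part 15, row TGR: the reductions are liftable
Proof: /team-store/h27_tg_blueprint.md   [helper59]
-/

set_option autoImplicit false

open scoped Classical
open NumberField Polynomial

namespace REC

open Pool.Agent.Helper13.ZL (Pl q)
open MU

namespace Tgr

/-- primes and base change -/
theorem over_bc {F K : Type} [Field F] [NumberField F] [Field K] [NumberField K] [Algebra F K]
    {j : AlgebraicClosure F ≃+* AlgebraicClosure K} (p : ℕ) (𝔔 : Ideal (Zb K)) (hQ : Over p 𝔔)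
    (𝔓 : Ideal (Zb F)) (h : ∀ (x : Zb F) (y : Zb K),
      (y : AlgebraicClosure K) = j (x : AlgebraicClosure F) → (x ∈ 𝔓 ↔ y ∈ 𝔔)) : Over p 𝔓 := by
  obtain ⟨hQp, hpQ⟩ := hQ
  have hint : ∀ x : Zb F, IsIntegral ℤ (j (x : AlgebraicClosure F)) := fun x =>
    x.2.map (j : AlgebraicClosure F →+* AlgebraicClosure K).toIntAlgHom
  let jz : Zb F →+* Zb K :=
    { toFun := fun x => ⟨j (x : AlgebraicClosure F), hint x⟩
      map_one' := Subtype.ext (map_one j)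
      map_mul' := fun x y => Subtype.ext (map_mul j _ _)
      map_zero' := Subtype.ext (map_zero j)
      map_add' := fun x y => Subtype.ext (map_add j _ _) }
  have h1 : 𝔓 = 𝔔.comap jz := by
    ext x
    rw [Ideal.mem_comap]
    exact h x (jz x) rfl
  have h2 : (𝔔.comap jz).IsPrime := by
    refine ⟨fun h5 => ?_, fun {x y} hxy => ?_⟩
    · have h6 : (1 : Zb F) ∈ 𝔔.comap jz := by rw [h5]; trivial
      rw [Ideal.mem_comap, map_one] at h6
      exact hQp.ne_top ((Ideal.eq_top_iff_one _).2 h6)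
    · rw [Ideal.mem_comap, map_mul] at hxy
      exact hQp.mem_or_mem hxy
  have h3 : (p : Zb F) ∈ 𝔔.comap jz := by
    rw [Ideal.mem_comap, map_natCast]
    exact hpQ
  rw [← h1] at h2 h3
  exact ⟨h2, h3⟩

/-- motives give families -/
theorem fam {F : Type} [Field F] [NumberField F] {S : Finset ℕ} {n w : ℕ} {h : Fin n → ℕ}
    (M : Mot F S n w h) : IsFam S (fun l _ => M.ρ l) := by
  refine ⟨fun l _ => M.continuous l, ?_⟩
  intro p hp hpS 𝔓 h𝔓 k σ hk hσ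
  obtain ⟨P, -, hP⟩ := M.pure p hp hpS 𝔓 h𝔓 k σ hk hσ
  exact ⟨P, fun l _ hl => hP l hl⟩

/-- restrictions of families -/
theorem fam_rs (hBCT : ST_BCT) {F K : Type} [Field F] [NumberField F] [Field K] [NumberField K]
    [Algebra F K] {j : AlgebraicClosure F ≃+* AlgebraicClosure K} {r : Gal K →* Gal F}
    (hbc : IsBC F K j r) {S : Finset ℕ} {n : ℕ} (ρ : Fml F n) (hρ : IsFam S ρ)
    (hc : ∀ (l : ℕ) [Fact l.Prime], Continuous (ρ.rs r l)) : IsFam S (ρ.rs r) := by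
  refine ⟨hc, ?_⟩
  intro p hp hpS 𝔔 h𝔔 k σ hk hσ
  obtain ⟨𝔓, h1, h2, -⟩ := hBCT F K j r hbc 𝔔
  have h3 := over_bc p 𝔔 h𝔔 𝔓 h1
  obtain ⟨P, hP⟩ := hρ.2 p hp hpS 𝔓 h3 k (r σ) hk ((h2 (p ^ k) σ).1 hσ)
  refine ⟨P, fun l _ hl => ?_⟩
  have h4 := hP l hl
  rw [← map_inv] at h4
  exact h4

theorem uniq {n m : ℕ} {L : Type} [Field L] [NumberField L] (b : Blo n m L) {Ω : Type} [Field Ω]
    (ι : 𝓞 L →+* Ω) (hN : (b.N : Ω) ≠ 0) {X Y : Matrix (Fin m) (Fin m) Ω}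
    (h : X * b.P.map ι = Y * b.P.map ι) : X = Y := by
  have h1 : b.P.map ι * b.Q.map ι = (b.N : Ω) • (1 : Matrix (Fin m) (Fin m) Ω) := by
    rw [← Matrix.map_mul, b.PQ, Matrix.map_smul' _ _ _ (map_mul _), map_natCast,
      Matrix.map_one _ (map_zero _) (map_one _)]
  have h2 := congrArg (fun Z => Z * b.Q.map ι) h
  simp only [Matrix.mul_assoc, h1, Matrix.mul_smul, Matrix.mul_one] at h2
  exact smul_right_injective _ hN h2

/-- a block over the extension field is the restriction of the block -/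
theorem lift {K K' L : Type} [Field K] [NumberField K] [Field K'] [NumberField K'] [Field L]
    [NumberField L] (r : Gal K' →* Gal K) {n m : ℕ} (b : Blo n m L) (ρ : Fml K n)
    (hst : b.Stb ρ) {l : ℕ} [Fact l.Prime] {Ω : Type} [Field Ω] (ϑ : ℤ_[l] →+* Ω)
    (ι : 𝓞 L →+* Ω) (R' : Gal K' →* Matrix (Fin m) (Fin m) Ω) (h : b.At (ρ.rs r l) ϑ ι R') :
    ∃ R : Gal K →* Matrix (Fin m) (Fin m) Ω, b.At (ρ l) ϑ ι R ∧ ∀ g, R' g = R (r g) := by
  obtain ⟨R, hR⟩ := hst l Ω ϑ ι h.1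
  refine ⟨R, hR, fun g => uniq b ι h.1 ?_⟩
  rw [← h.2 g, ← hR.2 (r g)]
  rfl

end Tgr

open Tgr

/-- TGR -/
theorem TGR (hGTS : ST_GTS) (hXUN : ST_XUN) (hDGO : ST_DGO) (hFXF : ST_FXF) (hIXB : ST_IXB)
    (hBCF : ST_BCF) (hBCT : ST_BCT) (hGNK : ST_GNK) (hMAI : ST_MAI) (hAVS : ST_AVS)
    (hAVL : ST_AVL) (hSSL : ST_SSL) : ST_TGR := by
  intro F _ _ S hS n w h M hMss hM
  refine ⟨hMss, ?_⟩
  obtain ⟨K, _, _, _, j, r, L, _, _, S', t, n₂, w₂, h₂, N, m, b, J, k, c, c', n₁, w₁, h₁, B, e,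
    hbc, hS', hJ, hN, hfrm, hgnr, hpab, hsmd⟩ := hM
  -- the generators
  have hsf : ∀ i, (b i).Sir (fun l _ => (N i).ρ l) ∧
      (b i).FLc (h₂ i) False (fun l _ => (N i).ρ l) := fun i =>
    hGTS K L S' hS' (n₂ i) (w₂ i) (h₂ i) (N i) (m i) (b i) S' (hN i).1 (hN i).2.1 (hN i).2.2
  -- the potentially abelian motives
  have hfam : ∀ a, IsFam S' (fun l _ => (B a).ρ l) := fun a => fam (B a)
  choose Ha hHao hHac using fun a => (hpab a).2
  choose U hUo hU using fun a => hDGO K S' (n₁ a) (fun l _ => (B a).ρ l) (hfam a) (hpab a).1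
    (Ha a) (hHao a) (hHac a)
  have hUUo : IsOpen ((⨅ a, U a : Subgroup (Gal K)) : Set (Gal K)) := by
    rw [Subgroup.coe_iInf]
    exact isOpen_iInter_of_finite fun a => hUo a
  obtain ⟨K', _, _, _, j', r', hbc', hr', -⟩ := hFXF K (⨅ a, U a) hUUo
  have hUle : ∀ a, r'.range ≤ U a := fun a => hr'.trans (iInf_le _ a)
  -- restriction
  obtain ⟨hcyc, hblo⟩ := hBCF K K' j' r' hbc'
  have hcyv : ∀ (l : ℕ) [Fact l.Prime] (Ω : Type) [Field Ω] (ϑ : ℤ_[l] →+* Ω) (g : Gal K'),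
      cyv ϑ g = cyv ϑ (r' g) := by
    intro l _ Ω _ ϑ g
    unfold cyv
    rw [hcyc l g⁻¹, map_inv r' g]
  have hst : ∀ i, (b i).Stb (fun l _ => (N i).ρ l) := fun i => (hN i).1
  have hlift : ∀ (i : Fin t) (l : ℕ) [Fact l.Prime] (Ω : Type) [Field Ω] (ϑ : ℤ_[l] →+* Ω)
      (ι : 𝓞 L →+* Ω) (R' : Gal K' →* Matrix (Fin (m i)) (Fin (m i)) Ω),
      (b i).At (Fml.rs (fun l _ => (N i).ρ l) r' l) ϑ ι R' →
      ∃ R : Gal K →* Matrix (Fin (m i)) (Fin (m i)) Ω, (b i).At ((N i).ρ l) ϑ ι R ∧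
        ∀ g, R' g = R (r' g) := fun i l _ Ω _ ϑ ι R' h =>
    lift r' (b i) (fun l _ => (N i).ρ l) (hst i) ϑ ι R' h
  obtain ⟨c₀, hc₀⟩ := hMAI K' L S' t n₂ m w₂ h₂ (fun i => Fml.rs (fun l _ => (N i).ρ l) r') b J
    k c c' n₁ (fun a => Fml.rs (fun l _ => (B a).ρ l) r') e n (fun l _ => ((M.ρ l).comp r).comp r')
    hJ (fun i => by
      obtain ⟨q1, q2, q3, -, q5, -⟩ := hblo L (n₂ i) (m i) (b i) (fun l _ => (N i).ρ l) (hst i)
      exact ⟨hXUN K K' j' r' hbc' S' hS' (n₂ i) (w₂ i) (h₂ i) (N i), q1, q2 S' (hN i).2.1,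
        q3 (h₂ i) False (hsf i).2, q5 (hsf i).1⟩)
    (by
      intro i l _ Ω _ ϑ ι R' hR' g
      obtain ⟨R, hR, hRR⟩ := hlift i l Ω ϑ ι R' hR'
      rw [hRR g, hcyv l Ω ϑ g]
      exact hfrm i l Ω ϑ ι R hR (r' g))
    (hGNK K K' j' r' hbc' L t n₂ m S' J w₂ b (fun i l _ => (N i).ρ l) hJ hfrm hgnr)
    (fun a => ⟨fam_rs hBCT hbc' _ (hfam a)
      (hXUN K K' j' r' hbc' S' hS' (n₁ a) (w₁ a) (h₁ a) (B a)).1, hU a K' r' (hUle a)⟩)
    (by
      obtain ⟨N₀, P, Q, hN₀, hQP, hPQ⟩ := hsmd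
      refine ⟨N₀, P, Q, hN₀, hQP, ?_⟩
      intro l _ Ω _ ϑ ι R' hN0 hR' a g
      choose R hR hRR using fun i => hlift i l Ω ϑ ι (R' i) (hR' i)
      have h1 := hPQ l Ω ϑ ι R hN0 hR a (r' g)
      have h2 : (fun i => R' i g) = fun i => R i (r' g) := funext fun i => hRR i g
      have h3 : (fun i => R' i g⁻¹) = fun i => R i (r' g)⁻¹ := funext fun i => by
        rw [hRR i g⁻¹, map_inv r' g]
      have h4 : twc (Fml.rs (fun l _ => (B a).ρ l) r' l) (e a) g =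
          twc ((B a).ρ l) (e a) (r' g) := by
        unfold twc
        rw [hcyc l g]
        rfl
      rw [h2, h3, h4]
      exact h1)
  -- the index
  have hφidx : (r.comp r').range.index ≠ 0 := by
    have h1 : (r.comp r').range = r'.range.map r := MonoidHom.range_comp _ _
    rw [h1, Subgroup.index_map]
    refine mul_ne_zero ?_ (hIXB F K j r hbc).2
    intro h3
    exact (hIXB K K' j' r' hbc').2
      (Nat.eq_zero_of_zero_dvd (h3 ▸ Subgroup.index_dvd_of_le le_sup_left))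
  refine ⟨max c₀ (r.comp r').range.index, fun l _ hl => ?_⟩
  have hlft : Lft (((M.ρ l).comp r).comp r') := hc₀ l (lt_of_le_of_lt (le_max_left _ _) hl)
  have hldvd : ¬ l ∣ (r.comp r').range.index := fun h => by
    have h1 := Nat.le_of_dvd (Nat.pos_of_ne_zero hφidx) h
    have h2 := lt_of_le_of_lt (le_max_right c₀ (r.comp r').range.index) hl
    omega
  refine hSSL (Gal F) n l (M.ρ l) ⟨?_, ?_⟩
  · refine hAVS (Gal F) (Gal K') (ZMod l) (r.comp r') n (res (M.ρ l)) ?_ hlft.1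
    intro h0
    exact hldvd ((ZMod.natCast_eq_zero_iff _ _).1 h0)
  · exact hAVL (Gal F) (Gal K') (r.comp r') n n l (M.ρ l) (M.ρ l) hldvd
      (fun u hu => hlft.2 u hu)

end REC
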